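import Pool.Agent.U455.SQT
import Pool.Agent.U766.OP.Exa
import Pool.Agent.Q278.KT.Fin

/-!
# Sums of a bounded number of primes between consecutive squares

The question asks whether `N² + (N + 1)² + 1 = 2 N² + 2 N + 2` is a sum of two primes between `N²` and `(N + 1)²`. Here: there
are absolute `m`, `M ≥ 1` and `κ > 0` such that for all `N ≤ X` but `o (X ^ 0.612)` the number `m (2 N² + 2 N + 2)`, and every
`n` in the class of this number modulo `2 M` at distance at most `N / 16` from it, is a sum of `2 m` primes between `N²` and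
`(N + 1)²`, in at least `(κ N / (log N)²) ^ m` ways.

Proof: `Pool.Agent.U455.SQT.final`: the `j` for which `2 N² + 2 N + 2 ± 2 j` is a sum of two primes between the squares in
at least `κ N / (log N)²` ways have positive density at all scales down to `N ^ (1 - δ)` (`Pool.Agent.U455.SQS.dens`, pairs of
opposite blocks, upper bound sieve and the second moment of `s / φ (s)` in short intervals); translation of this set
by an element and a local form of Schnirelmann's theorem (`Pool.Agent.U455.BTH.main`) give sums with a prescribed number of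
summands on both sides.
-/

set_option autoImplicit false

namespace Pool.Agent.Results.MP_e94e4b_nt.ManyPrimes

open Filter Finset

/-- the sequences of `m` pairs of primes between `N²` and `(N + 1)²` with sum `n` -/
def Reps (N m n : ℕ) : Finset (Fin m → ℕ × ℕ) :=
  (Fintype.piFinset (fun _ => Ioo (N ^ 2) ((N + 1) ^ 2) ×ˢ Ioo (N ^ 2) ((N + 1) ^ 2))).filter (fun f =>
    (∀ i, (f i).1.Prime ∧ (f i).2.Prime) ∧ ∑ i, ((f i).1 + (f i).2) = n)

/-- the property of `N` -/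
def Good (κ : ℝ) (m M N : ℕ) : Prop :=
  ∀ n : ℕ, (2 * M : ℤ) ∣ (n : ℤ) - m * (2 * N ^ 2 + 2 * N + 2) →
    (16 : ℤ) * |(n : ℤ) - (m : ℤ) * (2 * (N : ℤ) ^ 2 + 2 * N + 2)| ≤ (N : ℤ) →
    (κ * (N / Real.log N ^ 2)) ^ m ≤ ((Reps N m n).card : ℝ)

lemma reps_list (N : ℕ) (V : ℝ) (hV : 0 ≤ V) (L : List ℕ) (hL : ∀ s ∈ L, V ≤ (Pool.Agent.U455.SQS.rr N s : ℝ)) :
    V ^ L.length ≤ ((Reps N L.length L.sum).card : ℝ) := by
  classical
  obtain ⟨R, hR⟩ : ∃ R : ℕ → Finset (ℕ × ℕ), R = fun s =>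
    (Ioo (N ^ 2) ((N + 1) ^ 2) ×ˢ Ioo (N ^ 2) ((N + 1) ^ 2)).filter (fun x => x.1.Prime ∧ x.2.Prime ∧ x.1 + x.2 = s) :=
    ⟨_, rfl⟩
  have hRr : ∀ s, (R s).card = Pool.Agent.U455.SQS.rr N s := by
    intro s
    rw [hR]
    rfl
  have hsub : Fintype.piFinset (fun i : Fin L.length => R (L.get i)) ⊆ Reps N L.length L.sum := by
    intro f hf
    rw [Fintype.mem_piFinset] at hf
    have hf' : ∀ i, (f i ∈ Ioo (N ^ 2) ((N + 1) ^ 2) ×ˢ Ioo (N ^ 2) ((N + 1) ^ 2)) ∧ (f i).1.Prime ∧ (f i).2.Prime ∧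
        (f i).1 + (f i).2 = L.get i := by
      intro i
      have h1 := hf i
      rw [hR] at h1
      exact mem_filter.1 h1
    unfold Reps
    rw [mem_filter, Fintype.mem_piFinset]
    refine ⟨fun i => (hf' i).1, fun i => ⟨(hf' i).2.1, (hf' i).2.2.1⟩, ?_⟩
    rw [Finset.sum_congr rfl (fun i _ => (hf' i).2.2.2)]
    exact Fin.sum_univ_getElem L
  have h1 : ((Fintype.piFinset (fun i : Fin L.length => R (L.get i))).card : ℝ) ≤ ((Reps N L.length L.sum).card : ℝ) :=
    Nat.cast_le.2 (card_le_card hsub)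
  refine le_trans ?_ h1
  rw [Fintype.card_piFinset]
  push_cast
  calc V ^ L.length = ∏ _i : Fin L.length, V := by rw [prod_const, card_univ, Fintype.card_fin]
    _ ≤ ∏ i : Fin L.length, ((R (L.get i)).card : ℝ) := by
        apply Finset.prod_le_prod
        · intro i _; exact hV
        · intro i _
          rw [hRr]
          exact hL _ (List.get_mem L i)

theorem result : ∃ κ : ℝ, ∃ m M : ℕ, 0 < κ ∧ 1 ≤ m ∧ 1 ≤ M ∧ ∀ K : ℝ, ∃ X₀ : ℕ, ∀ X : ℕ, X₀ ≤ X →
    K * (({N : ℕ | 1 ≤ N ∧ N ≤ X ∧ ¬ Good κ m M N}.ncard : ℕ) : ℝ) ≤ (X : ℝ) ^ (0.612 : ℝ) := by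
  classical
  obtain ⟨c, δ, hc, hδ0, hδ, hfew⟩ := Pool.Agent.U766.OP.few Pool.Agent.Q278.KT.mainp_half
  obtain ⟨κ, h, M, N₀, hκ, hh, hM, hfin⟩ := Pool.Agent.U455.SQT.final c δ hc hδ0 hδ
  refine ⟨κ, 2 * h, M, hκ, by omega, hM, fun K => ?_⟩
  -- good integers
  have hgood : ∀ N : ℕ, N₀ ≤ N → Pool.Agent.U766.OP.Rich c δ N → Pool.Agent.U766.OP.Rich c δ (N + 1) →
      Good κ (2 * h) M N := by
    intro N hN h1 h2 n hn1 hn2
    obtain ⟨t, ht⟩ := hn1
    obtain ⟨l, l', a1, a2, a3, a4, a5⟩ := hfin N hN h1 h2 (M * t) (dvd_mul_right _ _) (by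
      have e : (n : ℤ) - (2 * h : ℕ) * (2 * N ^ 2 + 2 * N + 2) = 2 * (M * t) := by rw [ht]; ring
      rw [e, abs_mul] at hn2
      have e2 : |(2 : ℤ)| = 2 := abs_of_pos (by norm_num)
      rw [e2] at hn2
      linarith)
    obtain ⟨S, hS⟩ : ∃ S, S = 2 * N ^ 2 + 2 * N + 2 := ⟨_, rfl⟩
    obtain ⟨L, hL⟩ : ∃ L : List ℕ, L = l.map (fun j => S + 2 * j) ++ l'.map (fun j => S - 2 * j) := ⟨_, rfl⟩
    have hlen : L.length = 2 * h := by
      rw [hL, List.length_append, List.length_map, List.length_map, a1, a2, two_mul]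
    have hV : 0 ≤ κ * (N / Real.log N ^ 2) := by positivity
    have hrep := reps_list N (κ * (N / Real.log N ^ 2)) hV L (by
      intro s hs
      rw [hL] at hs
      rcases List.mem_append.1 hs with hs | hs
      · obtain ⟨j, hj, rfl⟩ := List.mem_map.1 hs
        have h3 := (a4 j hj).2.2
        unfold Pool.Agent.U455.SQS.plus at h3
        rw [← hS] at h3
        exact h3
      · obtain ⟨j, hj, rfl⟩ := List.mem_map.1 hs
        have h3 := (a5 j hj).2.2
        unfold Pool.Agent.U455.SQS.minus at h3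
        rw [← hS] at h3
        exact h3)
    have key1 : ∀ l : List ℕ, ((l.map (fun j => S + 2 * j)).sum : ℤ) = l.length * S + 2 * l.sum := by
      intro l
      induction l with
      | nil => simp
      | cons b l ih =>
        rw [List.map_cons, List.sum_cons, Nat.cast_add, ih, List.length_cons, List.sum_cons]
        push_cast
        ring
    have key2 : ∀ l : List ℕ, (∀ j ∈ l, j ≤ N) → ((l.map (fun j => S - 2 * j)).sum : ℤ) = l.length * S - 2 * l.sum := by
      intro l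
      induction l with
      | nil => intro _; simp
      | cons b l ih =>
        intro hb
        have hbN := hb b (by simp)
        rw [List.map_cons, List.sum_cons, Nat.cast_add, ih (fun j hj => hb j (List.mem_cons_of_mem _ hj)),
          List.length_cons, List.sum_cons, Nat.cast_sub (by rw [hS]; omega)]
        push_cast
        ring
    have hsum : L.sum = n := by
      have h3 : (L.sum : ℤ) = n := by
        rw [hL, List.sum_append, Nat.cast_add, key1 l, key2 l' (fun j hj => (a5 j hj).2.1), a1, a2]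
        have h4 : (S : ℤ) = 2 * N ^ 2 + 2 * N + 2 := by rw [hS]; push_cast; ring
        rw [h4]
        push_cast at ht a3 ⊢
        linarith
      exact_mod_cast h3
    rw [hsum, hlen] at hrep
    exact hrep
  -- the exceptions
  obtain ⟨K', hK'⟩ : ∃ K' : ℝ, K' = max K 1 := ⟨_, rfl⟩
  have hK'1 : 1 ≤ K' := by rw [hK']; exact le_max_right _ _
  have hKK' : K ≤ K' := by rw [hK']; exact le_max_left _ _
  obtain ⟨N₁, hN₁⟩ := hfew (8 * K') (by linarith)
  have tX : Tendsto (fun X : ℕ => (X : ℝ) ^ (0.612 : ℝ)) atTop atTop :=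
    (tendsto_rpow_atTop (by norm_num)).comp tendsto_natCast_atTop_atTop
  obtain ⟨X₁, hX₁⟩ := eventually_atTop.1 (tX.eventually_ge_atTop (2 * (K' * N₀)))
  refine ⟨max (max N₁ X₁) 1, fun X hX => ?_⟩
  have hXN₁ : N₁ ≤ X := (le_max_left _ _).trans ((le_max_left _ _).trans hX)
  have hXX₁ : X₁ ≤ X := (le_max_right _ _).trans ((le_max_left _ _).trans hX)
  have hX1 : 1 ≤ X := (le_max_right _ _).trans hX
  have hX1R : (1 : ℝ) ≤ X := by exact_mod_cast hX1
  obtain ⟨E, hE⟩ : ∃ E : Set ℕ, E = {n : ℕ | 1 ≤ n ∧ n ≤ X + 1 ∧ ¬ Pool.Agent.U766.OP.Rich c δ n} := ⟨_, rfl⟩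
  have hEfin : E.Finite := by
    rw [hE]
    exact (Set.finite_Icc 1 (X + 1)).subset fun n hn => ⟨hn.1, hn.2.1⟩
  have hE1 := hN₁ (X + 1) (by omega)
  rw [← hE] at hE1
  have hX2 : ((X + 1 : ℕ) : ℝ) ^ (0.612 : ℝ) ≤ 2 * (X : ℝ) ^ (0.612 : ℝ) := by
    calc ((X + 1 : ℕ) : ℝ) ^ (0.612 : ℝ) ≤ (2 * (X : ℝ)) ^ (0.612 : ℝ) := by
          apply Real.rpow_le_rpow (by positivity) _ (by norm_num)
          push_cast
          linarith
      _ = 2 ^ (0.612 : ℝ) * (X : ℝ) ^ (0.612 : ℝ) := Real.mul_rpow (by norm_num) (by positivity)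
      _ ≤ 2 * (X : ℝ) ^ (0.612 : ℝ) := by
          apply mul_le_mul_of_nonneg_right _ (by positivity)
          calc (2 : ℝ) ^ (0.612 : ℝ) ≤ 2 ^ (1 : ℝ) := Real.rpow_le_rpow_of_exponent_le (by norm_num) (by norm_num)
            _ = 2 := Real.rpow_one 2
  have hsub : {N : ℕ | 1 ≤ N ∧ N ≤ X ∧ ¬ Good κ (2 * h) M N} ⊆
      ((range N₀ : Finset ℕ) : Set ℕ) ∪ (E ∪ (fun n => n - 1) '' E) := by
    intro N hN
    obtain ⟨a1, a2, a3⟩ := hN
    by_cases hN0 : N < N₀
    · exact Or.inl (by rw [mem_coe, mem_range]; exact hN0)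
    · refine Or.inr ?_
      push Not at hN0
      by_cases hr : Pool.Agent.U766.OP.Rich c δ N
      · refine Or.inr ⟨N + 1, ?_, by simp⟩
        rw [hE]
        refine ⟨by omega, by omega, fun hr' => a3 (hgood N hN0 hr hr')⟩
      · refine Or.inl ?_
        rw [hE]
        exact ⟨a1, by omega, hr⟩
  have hcard : {N : ℕ | 1 ≤ N ∧ N ≤ X ∧ ¬ Good κ (2 * h) M N}.ncard ≤ N₀ + 2 * E.ncard := by
    have hfin2 : (((range N₀ : Finset ℕ) : Set ℕ) ∪ (E ∪ (fun n => n - 1) '' E)).Finite :=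
      (Finset.finite_toSet _).union (hEfin.union (hEfin.image _))
    refine (Set.ncard_le_ncard hsub hfin2).trans ((Set.ncard_union_le _ _).trans ?_)
    have h3 : (((range N₀ : Finset ℕ) : Set ℕ)).ncard = N₀ := by
      rw [Set.ncard_coe_finset, card_range]
    have h4 := Set.ncard_union_le E ((fun n => n - 1) '' E)
    have h5 := Set.ncard_image_le (f := fun n : ℕ => n - 1) hEfin
    rw [h3]
    omega
  have hcardR : (({N : ℕ | 1 ≤ N ∧ N ≤ X ∧ ¬ Good κ (2 * h) M N}.ncard : ℕ) : ℝ) ≤ N₀ + 2 * (E.ncard : ℝ) := by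
    exact_mod_cast hcard
  have h6 := hX₁ X hXX₁
  calc K * (({N : ℕ | 1 ≤ N ∧ N ≤ X ∧ ¬ Good κ (2 * h) M N}.ncard : ℕ) : ℝ)
      ≤ K' * (({N : ℕ | 1 ≤ N ∧ N ≤ X ∧ ¬ Good κ (2 * h) M N}.ncard : ℕ) : ℝ) :=
        mul_le_mul_of_nonneg_right hKK' (Nat.cast_nonneg _)
    _ ≤ K' * (N₀ + 2 * (E.ncard : ℝ)) := by gcongr
    _ = K' * N₀ + 8 * K' * (E.ncard : ℝ) / 4 := by ring
    _ ≤ (X : ℝ) ^ (0.612 : ℝ) := by linarith

end Pool.Agent.Results.MP_e94e4b_nt.ManyPrimes
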