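import Pool.Agent.U832.RG.Use
import Pool.Agent.U832.RH.GeD

/-!
# Almost prime pairs between consecutive squares with the sum `2 N ^ 2 + 2 N + 2` in a Poisson environment

For EVERY large `N` we consider the `k` such that neither `N ^ 2 + k + 1` nor `(N + 1) ^ 2 - k` has a prime factor
`≤ N ^ (1 / r)`. The numbers of such `k` in disjoint short windows, seen from an arbitrary integer, from an arbitrary
such `k` and from an arbitrary `k` for which both numbers have at most `R` prime factors, all `> N ^ w`, are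
independent Poisson variables; here `R` and `w` do not depend on the windows and on `r`.
-/

set_option autoImplicit false

namespace Pool.Agent.Results.MP_e94e4b_nt.PoissonPairs

open Finset Filter Pool.Agent.U832.RG Pool.Agent.U832.RH

/-- The `k ≤ 2 N` for which neither `N ^ 2 + k + 1` nor `(N + 1) ^ 2 - k` has a prime factor `≤ y`. -/
def Pairs (N y : ℕ) : Set ℕ :=
  {k | k ≤ 2 * N ∧ ∀ p : ℕ, p.Prime → p ≤ y → ¬ p ∣ N ^ 2 + k + 1 ∧ ¬ p ∣ (N + 1) ^ 2 - k}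

/-- The `k` in `Pairs N z` for which `N ^ 2 + k + 1` and `(N + 1) ^ 2 - k` have at most `R` prime factors each, counted
with multiplicity. -/
def AlmostPairs (N R z : ℕ) : Set ℕ :=
  {k | k ∈ Pairs N z ∧ (N ^ 2 + k + 1).primeFactorsList.length ≤ R ∧
    ((N + 1) ^ 2 - k).primeFactorsList.length ≤ R}

/-- The product, over the primes `p ≤ y`, of `1 - 1 / p` for `p ∣ 2 N ^ 2 + 2 N + 2` and of `1 - 2 / p` for the
others. -/
noncomputable def V (N y : ℕ) : ℝ :=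
  ∏ p ∈ (Icc 1 y).filter Nat.Prime, (1 - (if p ∣ 2 * N ^ 2 + 2 * N + 2 then 1 else 2 : ℕ) / (p : ℝ))

section aux

open Pool.Agent.Y879.GL Pool.Agent.Y879.AP Pool.Agent.TH464.PO Pool.Agent.H373R2.T7 Pool.Agent.W123.RP

lemma pair_iff {N y k : ℕ} (h : k ≤ 2 * N) :
    k ∈ Pairs N y ↔ Sf (Pool.Agent.W123.RU.Poly.Q (pf (-1) ((2 * N ^ 2 + 2 * N + 2 : ℕ) : ℤ) 1 (N ^ 2 + 1))) y k := by
  have key : ∀ p : ℕ, p.Prime →
      (Pool.Agent.W123.RU.Poly.Q (pf (-1) ((2 * N ^ 2 + 2 * N + 2 : ℕ) : ℤ) 1 (N ^ 2 + 1)) p k ↔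
      p ∣ N ^ 2 + k + 1 ∨ p ∣ (N + 1) ^ 2 - k) := by
    intro p hp
    rw [pf_Q _ _ _ _ _ _ hp]
    unfold Q2
    have h2 : k ≤ (N + 1) ^ 2 := by nlinarith
    have e : ((1 * k + (N ^ 2 + 1) : ℕ) : ℤ) * (-1 * ((1 * k + (N ^ 2 + 1) : ℕ) : ℤ) +
        ((2 * N ^ 2 + 2 * N + 2 : ℕ) : ℤ)) = (((N ^ 2 + k + 1) * ((N + 1) ^ 2 - k) : ℕ) : ℤ) := by
      rw [Nat.cast_mul, Nat.cast_sub h2]
      push_cast
      ring
    rw [e, Int.natCast_dvd_natCast, hp.dvd_mul]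
  constructor
  · intro h1 p hp
    have hp' := mem_pz.1 hp
    rw [key p hp'.2]
    push Not
    exact h1.2 p hp'.2 hp'.1
  · intro h1
    refine ⟨h, fun p hp hpy => ?_⟩
    have h2 := h1 p (mem_pz.2 ⟨hpy, hp⟩)
    rw [key p hp] at h2
    push Not at h2
    exact h2

lemma V_eq (N y : ℕ) : Vq (Qn (Q2 (-1) ((2 * N ^ 2 + 2 * N + 2 : ℕ) : ℤ)) 1) y = V N y := by
  unfold Vq V
  apply Finset.prod_congr rfl
  intro p hp
  have hp' := (mem_filter.1 hp).2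
  congr 3
  rw [nuB_Qn_not _ _ _ (fun h => hp'.one_lt.ne' (Nat.dvd_one.1 h)), nuB_Q2 (-1) _ (by norm_num) p hp']
  unfold nu2
  by_cases h2 : p ∣ 2 * N ^ 2 + 2 * N + 2
  · rw [if_pos (Int.natCast_dvd_natCast.2 h2), if_pos h2]
  · rw [if_neg (fun h3 => h2 (Int.natCast_dvd_natCast.1 h3)), if_neg h2]

lemma f_le {N : ℕ} (hN : 3 ≤ N) : 2 * N ^ 2 + 2 * N + 2 ≤ N ^ 3 := by
  have h3 : 3 * N ≤ N * N := Nat.mul_le_mul_right N hN
  have h2 : 3 * (N * N) ≤ N ^ 3 := by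
    calc 3 * (N * N) ≤ N * (N * N) := Nat.mul_le_mul_right _ hN
      _ = N ^ 3 := by ring
  have e : N ^ 2 = N * N := sq N
  omega

lemma almost_iff {N z k : ℕ} {w : ℝ} (hN : 3 ≤ N) (hw : 0 < w) (hz : z = ⌊(N : ℝ) ^ w⌋₊) (h : k ≤ 2 * N) :
    k ∈ AlmostPairs N ⌊3 / w⌋₊ z ↔ k ∈ Pairs N z := by
  refine ⟨fun h1 => h1.1, fun h1 => ⟨h1, ?_, ?_⟩⟩
  · apply few_factors N w 3 (by omega) hw _ (by omega)
    · rw [show (3 : ℝ) = ((3 : ℕ) : ℝ) by norm_num, Real.rpow_natCast]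
      have h2 : N ^ 2 + k + 1 ≤ N ^ 3 := by
        have h3 := f_le hN
        nlinarith
      exact_mod_cast h2
    · intro p hp hpz
      exact (h1.2 p hp (by rw [hz]; exact hpz)).1
  · have h4 : k < (N + 1) ^ 2 := by nlinarith
    apply few_factors N w 3 (by omega) hw _ (by omega)
    · rw [show (3 : ℝ) = ((3 : ℕ) : ℝ) by norm_num, Real.rpow_natCast]
      have h2 : (N + 1) ^ 2 - k ≤ N ^ 3 := by
        have h3 := f_le hN
        have h5 : (N + 1) ^ 2 ≤ 2 * N ^ 2 + 2 * N + 2 := by nlinarith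
        omega
      exact_mod_cast h2
    · intro p hp hpz
      exact (h1.2 p hp (by rw [hz]; exact hpz)).2

end aux

/-- Let `θ, δ > 0`. There are `w > 0` and `R`, such that for all `J`, `L`, `x₀`, all `ε > 0` and all large `r`: for
EVERY large `N`, with `y = ⌊N ^ (1 / r)⌋`, `z = ⌊N ^ w⌋`, ALL intervals `(Z, Z + Y]` with `Y ≥ N ^ θ` and all `T` with
`T V ≤ x₀`, `V = V N y`, and `Z + Y + T ≤ 2 N`:
(1) the set `Pairs N y` satisfies `PoissonLaw`: for all disjoint windows `(a j, b j] ⊆ (0, T]`, `j < J`, all `s ≤ T`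
outside of them and all `k j ≤ L`, the number of the `n` in `(Z, Z + Y]` with `n + s ∈ Pairs N y` and exactly `k j`
elements of `Pairs N y` in `(n + a j, n + b j]` for all `j` is `Y V Π` up to `ε Y V`, where `Π` is the product of the
probabilities that a Poisson variable of mean `(b j - a j) V` has the value `k j`; and the same without the condition
on `n + s`, with `Y` instead of `Y V`;
(2) the number of the `n` in `(Z, Z + Y]` for which `n + s` is in `AlmostPairs N R z`, with the same windows, is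
`Y W Π` up to `(δ Π + ε) Y W`, `W = V N z`. -/
theorem result (θ δ : ℝ) (hθ : 0 < θ) (hδ : 0 < δ) :
    ∃ w : ℝ, 0 < w ∧ ∃ R : ℕ, ∀ (J L : ℕ) (x₀ ε : ℝ), 0 < ε → ∃ r₀ : ℕ, ∀ r : ℕ, r₀ ≤ r → ∀ᶠ N : ℕ in atTop,
      ∀ y z : ℕ, y = ⌊(N : ℝ) ^ (1 / (r : ℝ))⌋₊ → z = ⌊(N : ℝ) ^ w⌋₊ →
      ∀ Z Y T : ℕ, (N : ℝ) ^ θ ≤ Y → T * V N y ≤ x₀ → Z + Y + T ≤ 2 * N →
        PoissonLaw (Pairs N y) (V N y) J L ε Z Y T ∧
        CentreLaw (AlmostPairs N R z) (Pairs N y) (V N z) (V N y) J L δ ε Z Y T := by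
  have par : ∀ N : ℕ, Even ((2 * N ^ 2 + 2 * N + 2 : ℕ) : ℤ) := fun N => by
    refine ⟨((N ^ 2 + N + 1 : ℕ) : ℤ), ?_⟩
    push_cast
    ring
  have bd : ∀ N : ℕ, 3 ≤ N → |(((2 * N ^ 2 + 2 * N + 2 : ℕ) : ℤ) : ℝ)| ≤ (N : ℝ) ^ (3 : ℝ) := by
    intro N hN
    have h1 := f_le hN
    rw [Int.cast_natCast, Nat.abs_cast, show (3 : ℝ) = ((3 : ℕ) : ℝ) by norm_num, Real.rpow_natCast]
    exact_mod_cast h1
  have bda : ∀ N : ℕ, 3 ≤ N → ((N ^ 2 + 1 : ℕ) : ℝ) ≤ (N : ℝ) ^ (3 : ℝ) := by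
    intro N hN
    have h1 := f_le hN
    rw [show (3 : ℝ) = ((3 : ℕ) : ℝ) by norm_num, Real.rpow_natCast]
    have h2 : N ^ 2 + 1 ≤ N ^ 3 := by omega
    exact_mod_cast h2
  have bdq : ∀ N : ℕ, 3 ≤ N → ((1 : ℕ) : ℝ) ≤ (N : ℝ) ^ (3 : ℝ) := by
    intro N hN
    have h1 : (1 : ℝ) ≤ N := by exact_mod_cast (by omega : 1 ≤ N)
    rw [Nat.cast_one]
    exact Real.one_le_rpow h1 (by norm_num)
  have cop1 : ∀ N : ℕ, Nat.Coprime 1 (N ^ 2 + 1) := fun N => Nat.coprime_one_left _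
  have cop2 : ∀ N : ℕ, IsCoprime ((1 : ℕ) : ℤ)
      (-1 * ((N ^ 2 + 1 : ℕ) : ℤ) + ((2 * N ^ 2 + 2 * N + 2 : ℕ) : ℤ)) := fun N => by
    rw [Nat.cast_one]
    exact isCoprime_one_left
  obtain ⟨w, hw, hG⟩ := lawG_prog2 3 1 θ (by norm_num) one_pos hθ δ hδ
  refine ⟨w, hw, ⌊3 / w⌋₊, ?_⟩
  intro J L x₀ ε hε
  obtain ⟨r₁, h⟩ := law_prog2 3 1 θ (by norm_num) one_pos hθ J L x₀ ε hε
  obtain ⟨r₂, h'⟩ := hG w hw le_rfl J L x₀ ε hε
  refine ⟨max r₁ r₂, fun r hr => ?_⟩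
  filter_upwards [h r ((le_max_left _ _).trans hr), h' r ((le_max_right _ _).trans hr), eventually_ge_atTop 3]
    with N hN hN' hN3
  intro y z hy hz Z Y T hY hT hZ
  have hne : ∀ t : ℕ, 1 ≤ t → (t : ℝ) ≤ (N : ℝ) ^ (1 : ℝ) →
      ((2 * N ^ 2 + 2 * N + 2 : ℕ) : ℤ) ^ 2 ≠ (((1 : ℕ) : ℤ) * t) ^ 2 := fun t ht htN heq => by
    rw [Real.rpow_one] at htN
    have h2 : t ≤ N := by exact_mod_cast htN
    have h3 : ((2 * N ^ 2 + 2 * N + 2 : ℕ) : ℤ) = (((1 : ℕ) : ℤ) * t) := by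
      have h3 := sq_eq_sq₀ (a := ((2 * N ^ 2 + 2 * N + 2 : ℕ) : ℤ)) (b := ((1 : ℕ) : ℤ) * t) (by positivity)
        (by positivity)
      exact h3.1 heq
    rw [Nat.cast_one, one_mul] at h3
    have h4 : 2 * N ^ 2 + 2 * N + 2 = t := by exact_mod_cast h3
    nlinarith
  constructor
  · have h1 := hN (-1) ((2 * N ^ 2 + 2 * N + 2 : ℕ) : ℤ) 1 (N ^ 2 + 1) (by norm_num) (par N)
      (by positivity) (bd N hN3) le_rfl (bdq N hN3) (bda N hN3) (cop1 N) (cop2 N) hne Z Y hY T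
    rw [← hy, V_eq] at h1
    exact h1 hT (Pairs N y) (fun m hm => pair_iff (by omega))
  · have h1 := hN' y z hy hz (-1) ((2 * N ^ 2 + 2 * N + 2 : ℕ) : ℤ) 1 (N ^ 2 + 1) (by norm_num) (par N)
      (by positivity) (bd N hN3) le_rfl (bdq N hN3) (bda N hN3) (cop1 N) (cop2 N) hne Z Y hY T
    rw [V_eq, V_eq] at h1
    exact h1 hT (AlmostPairs N ⌊3 / w⌋₊ z) (Pairs N y) (fun m hm => pair_iff (by omega))
      (fun m hm => (almost_iff hN3 hw hz (by omega)).trans (pair_iff (by omega)))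

end Pool.Agent.Results.MP_e94e4b_nt.PoissonPairs
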