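import Pool.Agent.U455.SQS
import Pool.Agent.U766.OP.Exa
import Pool.Agent.Q278.KT.Fin

/-!
# Sums of two primes between consecutive squares near `N² + (N + 1)² + 1`

The question asks for two primes `p`, `q` between `N²` and `(N + 1)²` with `p + q = 2 N² + 2 N + 2`. Let `reps N j` be the
number of the pairs `(p, q)` of primes of `(N², (N + 1)²)` with `p + q = 2 N² + 2 N + 2 + 2 j` (the question is `j = 0`), and
call `j ∈ ℤ` popular if `reps N j ≥ κ N / (log N)²` (the right order of magnitude). For all `N` up to `X` but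
`o (X ^ 0.612)`:

* on both sides of `0` and at EVERY scale `L` with `N ^ (1 - δ) ≤ L ≤ N / 8` a positive proportion of the `j` with
  `1 ≤ ± j ≤ L` is popular;
* every multiple `t` of `M` with `N ^ (1 - δ) ≤ t ≤ N / 8` is a sum of at most `h` popular numbers `j ≥ 1`, and a sum of at
  most `h` numbers `j ≥ 1` with `- j` popular;
* EVERY multiple `t` of `M` with `|t| ≤ N / 16` (also `t = 0` and the small ones) is a sum of at most `2 h` popular nonzero
  integers `j` with `|j| ≤ N / 8`.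

Proof: for all but few `N` every interval of length `N ^ (1 - δ)` between the squares contains the right number of primes
(`Pool.Agent.U766.OP.few`); the pairs of primes of opposite blocks give the first moment, the upper bound sieve with the
classes `0` and `s` (`Pool.Agent.U455.UPG.up_gen`) and the second moment of `s / φ (s)` in short intervals far away from `0`
(`Pool.Agent.U455.SQS.short_mom`) give the positive density, and a local form of Schnirelmann's theorem for arbitrary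
positive density (`Pool.Agent.U455.BTH.main`) gives the sums.
-/

set_option autoImplicit false

namespace Pool.Agent.Results.MP_e94e4b_nt.SumsNearMiss

open Filter Finset

/-- the number of the pairs `(p, q)` of primes between `N²` and `(N + 1)²` with `p + q = 2 N² + 2 N + 2 + 2 j` -/
def reps (N : ℕ) (j : ℤ) : ℕ :=
  ((Ioo (N ^ 2) ((N + 1) ^ 2) ×ˢ Ioo (N ^ 2) ((N + 1) ^ 2)).filter (fun x =>
    x.1.Prime ∧ x.2.Prime ∧ (x.1 : ℤ) + x.2 = 2 * N ^ 2 + 2 * N + 2 + 2 * j)).card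

/-- the right order of magnitude -/
def Popular (κ : ℝ) (N : ℕ) (j : ℤ) : Prop := κ * (N / Real.log N ^ 2) ≤ reps N j

open Classical in
/-- the properties of `N` -/
def Good (κ ρ δ : ℝ) (h M N : ℕ) : Prop :=
  (∀ L : ℕ, (N : ℝ) ^ (1 - δ) ≤ L → 8 * L ≤ N →
    ρ * L ≤ (((Icc 1 L).filter (fun j : ℕ => Popular κ N j)).card : ℝ) ∧
    ρ * L ≤ (((Icc 1 L).filter (fun j : ℕ => Popular κ N (-j))).card : ℝ)) ∧
  (∀ t : ℕ, M ∣ t → (N : ℝ) ^ (1 - δ) ≤ t → 8 * t ≤ N →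
    (∃ l : List ℕ, l.length ≤ h ∧ l.sum = t ∧ ∀ j ∈ l, 1 ≤ j ∧ Popular κ N j) ∧
    (∃ l : List ℕ, l.length ≤ h ∧ l.sum = t ∧ ∀ j ∈ l, 1 ≤ j ∧ Popular κ N (-j))) ∧
  (∀ t : ℤ, (M : ℤ) ∣ t → 16 * |t| ≤ N →
    ∃ l : List ℤ, l.length ≤ 2 * h ∧ l.sum = t ∧ ∀ j ∈ l, j ≠ 0 ∧ 8 * |j| ≤ N ∧ Popular κ N j)

lemma reps_plus (N j : ℕ) : reps N j = Pool.Agent.U455.SQS.rr N (2 * N ^ 2 + 2 * N + 2 + 2 * j) := by
  unfold reps Pool.Agent.U455.SQS.rr Pool.Agent.U455.SQS.II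
  congr 1
  ext x
  rw [mem_filter, mem_filter]
  constructor
  · rintro ⟨h1, h2, h3, h4⟩
    exact ⟨h1, h2, h3, by exact_mod_cast h4⟩
  · rintro ⟨h1, h2, h3, h4⟩
    exact ⟨h1, h2, h3, by exact_mod_cast h4⟩

lemma reps_minus (N j : ℕ) (hj : j ≤ N) :
    reps N (-j) = Pool.Agent.U455.SQS.rr N (2 * N ^ 2 + 2 * N + 2 - 2 * j) := by
  have h0 : 2 * j ≤ 2 * N ^ 2 + 2 * N + 2 := by omega
  unfold reps Pool.Agent.U455.SQS.rr Pool.Agent.U455.SQS.II
  congr 1
  ext x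
  rw [mem_filter, mem_filter]
  constructor
  · rintro ⟨h1, h2, h3, h4⟩
    refine ⟨h1, h2, h3, ?_⟩
    zify [h0]
    linarith
  · rintro ⟨h1, h2, h3, h4⟩
    refine ⟨h1, h2, h3, ?_⟩
    zify [h0] at h4
    linarith

lemma sum_map_cast (l : List ℕ) : (l.map (fun j : ℕ => (j : ℤ))).sum = (l.sum : ℤ) := by
  induction l with
  | nil => simp
  | cons b l ih => rw [List.map_cons, List.sum_cons, ih, List.sum_cons]; push_cast; rfl

lemma sum_map_neg (l : List ℕ) : (l.map (fun j : ℕ => -(j : ℤ))).sum = -(l.sum : ℤ) := by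
  induction l with
  | nil => simp
  | cons b l ih => rw [List.map_cons, List.sum_cons, ih, List.sum_cons]; push_cast; ring

lemma le_sum {l : List ℕ} {j : ℕ} (hj : j ∈ l) : j ≤ l.sum := List.single_le_sum (fun _ _ => Nat.zero_le _) j hj

theorem result : ∃ κ ρ δ : ℝ, ∃ h M : ℕ, 0 < κ ∧ 0 < ρ ∧ 0 < δ ∧ 1 ≤ M ∧ ∀ K : ℝ, ∃ X₀ : ℕ, ∀ X : ℕ, X₀ ≤ X →
    K * (({N : ℕ | 1 ≤ N ∧ N ≤ X ∧ ¬ Good κ ρ δ h M N}.ncard : ℕ) : ℝ) ≤ (X : ℝ) ^ (0.612 : ℝ) := by
  classical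
  obtain ⟨c, δ, hc, hδ0, hδ, hfew⟩ := Pool.Agent.U766.OP.few Pool.Agent.Q278.KT.mainp_half
  obtain ⟨κ, ρ, h, M, N₀, hκ, hρ, hM, hfin⟩ := Pool.Agent.U455.SQS.final c δ hc hδ0 hδ
  refine ⟨κ, ρ, δ / 2, h, M, hκ, hρ, by positivity, hM, fun K => ?_⟩
  -- good integers
  have hgood : ∀ N : ℕ, N₀ ≤ N → Pool.Agent.U766.OP.Rich c δ N → Pool.Agent.U766.OP.Rich c δ (N + 1) →
      Good κ ρ (δ / 2) h M N := by
    intro N hN h1 h2
    obtain ⟨g1, g2, t₀, g3, g4, g5⟩ := hfin N hN h1 h2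
    have hp : ∀ j : ℕ, Pool.Agent.U455.SQS.plus κ N j ↔ Popular κ N j := by
      intro j
      unfold Pool.Agent.U455.SQS.plus Popular
      rw [reps_plus]
    have hm : ∀ j : ℕ, j ≤ N → (Pool.Agent.U455.SQS.minus κ N j ↔ Popular κ N (-j)) := by
      intro j hj
      unfold Pool.Agent.U455.SQS.minus Popular
      rw [reps_minus N j hj]
    have g2' : ∀ t : ℕ, M ∣ t → (N : ℝ) ^ (1 - δ / 2) ≤ t → 8 * t ≤ N →
        (∃ l : List ℕ, l.length ≤ h ∧ l.sum = t ∧ ∀ j ∈ l, 1 ≤ j ∧ Popular κ N j) ∧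
        (∃ l : List ℕ, l.length ≤ h ∧ l.sum = t ∧ ∀ j ∈ l, 1 ≤ j ∧ Popular κ N (-j)) := by
      intro t hMt ht htN
      obtain ⟨⟨l, a1, a2, a3⟩, l', b1, b2, b3⟩ := g2 t hMt ht htN
      refine ⟨⟨l, a1, a2, fun j hj => ⟨(a3 j hj).1, (hp j).1 (a3 j hj).2⟩⟩, l', b1, b2, fun j hj => ⟨(b3 j hj).1, ?_⟩⟩
      have h3 := le_sum hj
      exact (hm j (by omega)).1 (b3 j hj).2
    refine ⟨fun L hL hLN => ?_, g2', fun t hMt htN => ?_⟩
    · obtain ⟨a1, a2⟩ := g1 L hL hLN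
      refine ⟨a1.trans (Nat.cast_le.2 (card_le_card fun j hj => ?_)),
        a2.trans (Nat.cast_le.2 (card_le_card fun j hj => ?_))⟩
      · rw [mem_filter] at hj ⊢
        exact ⟨hj.1, (hp j).1 hj.2⟩
      · rw [mem_filter, mem_Icc] at hj
        rw [mem_filter, mem_Icc]
        exact ⟨hj.1, (hm j (by omega)).1 hj.2⟩
    · -- signed sums
      obtain ⟨s, hs⟩ : ∃ s : ℕ, (s : ℤ) = |t| := ⟨t.natAbs, Int.natCast_natAbs t⟩
      rw [← hs] at htN
      have hMs : M ∣ s := by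
        have h3 : (M : ℤ) ∣ |t| := (dvd_abs _ _).2 hMt
        rw [← hs] at h3
        exact_mod_cast h3
      have hsN : 16 * s ≤ N := by exact_mod_cast htN
      have hst : (N : ℝ) ^ (1 - δ / 2) ≤ ((s + t₀ : ℕ) : ℝ) := by
        push_cast
        have : (0 : ℝ) ≤ s := Nat.cast_nonneg _
        linarith
      obtain ⟨⟨l, a1, a2, a3⟩, l', b1, b2, b3⟩ := g2' (s + t₀) (dvd_add hMs g3) hst (by omega)
      obtain ⟨⟨m, c1, c2, c3⟩, m', d1, d2, d3⟩ := g2' t₀ g3 g4 (by omega)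
      rcases le_total 0 t with h3 | h3
      · refine ⟨l.map (fun j : ℕ => (j : ℤ)) ++ m'.map (fun j : ℕ => -(j : ℤ)), ?_, ?_, fun j hj => ?_⟩
        · rw [List.length_append, List.length_map, List.length_map]
          omega
        · rw [List.sum_append, sum_map_cast, sum_map_neg, a2, d2]
          rw [abs_of_nonneg h3] at hs
          push_cast
          linarith
        · rcases List.mem_append.1 hj with hj | hj
          · obtain ⟨i, hi, rfl⟩ := List.mem_map.1 hj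
            obtain ⟨e1, e2⟩ := a3 i hi
            have e3 := le_sum hi
            refine ⟨by exact_mod_cast (by omega : i ≠ 0), ?_, e2⟩
            rw [Nat.abs_cast]
            exact_mod_cast (by omega : 8 * i ≤ N)
          · obtain ⟨i, hi, rfl⟩ := List.mem_map.1 hj
            obtain ⟨e1, e2⟩ := d3 i hi
            have e3 := le_sum hi
            refine ⟨by rw [neg_ne_zero]; exact_mod_cast (by omega : i ≠ 0), ?_, e2⟩
            rw [abs_neg, Nat.abs_cast]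
            exact_mod_cast (by omega : 8 * i ≤ N)
      · refine ⟨m.map (fun j : ℕ => (j : ℤ)) ++ l'.map (fun j : ℕ => -(j : ℤ)), ?_, ?_, fun j hj => ?_⟩
        · rw [List.length_append, List.length_map, List.length_map]
          omega
        · rw [List.sum_append, sum_map_cast, sum_map_neg, c2, b2]
          rw [abs_of_nonpos h3] at hs
          push_cast
          linarith
        · rcases List.mem_append.1 hj with hj | hj
          · obtain ⟨i, hi, rfl⟩ := List.mem_map.1 hj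
            obtain ⟨e1, e2⟩ := c3 i hi
            have e3 := le_sum hi
            refine ⟨by exact_mod_cast (by omega : i ≠ 0), ?_, e2⟩
            rw [Nat.abs_cast]
            exact_mod_cast (by omega : 8 * i ≤ N)
          · obtain ⟨i, hi, rfl⟩ := List.mem_map.1 hj
            obtain ⟨e1, e2⟩ := b3 i hi
            have e3 := le_sum hi
            refine ⟨by rw [neg_ne_zero]; exact_mod_cast (by omega : i ≠ 0), ?_, e2⟩
            rw [abs_neg, Nat.abs_cast]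
            exact_mod_cast (by omega : 8 * i ≤ N)
  -- the exceptions
  obtain ⟨K', hK'⟩ : ∃ K' : ℝ, K' = max K 1 := ⟨_, rfl⟩
  have hK'1 : 1 ≤ K' := by rw [hK']; exact le_max_right _ _
  have hKK' : K ≤ K' := by rw [hK']; exact le_max_left _ _
  obtain ⟨N₁, hN₁⟩ := hfew (8 * K') (by linarith)
  have tX : Tendsto (fun X : ℕ => (X : ℝ) ^ (0.612 : ℝ)) atTop atTop :=
    (tendsto_rpow_atTop (by norm_num)).comp tendsto_natCast_atTop_atTop
  obtain ⟨X₁, hX₁⟩ := eventually_atTop.1 (tX.eventually_ge_atTop (2 * (K' * N₀)))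
  refine ⟨max (max N₁ X₁) 1, fun X hX => ?_⟩
  have hXN₁ : N₁ ≤ X := (le_max_left _ _).trans ((le_max_left _ _).trans hX)
  have hXX₁ : X₁ ≤ X := (le_max_right _ _).trans ((le_max_left _ _).trans hX)
  have hX1 : 1 ≤ X := (le_max_right _ _).trans hX
  have hX1R : (1 : ℝ) ≤ X := by exact_mod_cast hX1
  obtain ⟨E, hE⟩ : ∃ E : Set ℕ, E = {n : ℕ | 1 ≤ n ∧ n ≤ X + 1 ∧ ¬ Pool.Agent.U766.OP.Rich c δ n} := ⟨_, rfl⟩
  have hEfin : E.Finite := by
    rw [hE]
    exact (Set.finite_Icc 1 (X + 1)).subset fun n hn => ⟨hn.1, hn.2.1⟩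
  have hE1 := hN₁ (X + 1) (by omega)
  rw [← hE] at hE1
  have hX2 : ((X + 1 : ℕ) : ℝ) ^ (0.612 : ℝ) ≤ 2 * (X : ℝ) ^ (0.612 : ℝ) := by
    calc ((X + 1 : ℕ) : ℝ) ^ (0.612 : ℝ) ≤ (2 * (X : ℝ)) ^ (0.612 : ℝ) := by
          apply Real.rpow_le_rpow (by positivity) _ (by norm_num)
          push_cast
          linarith
      _ = 2 ^ (0.612 : ℝ) * (X : ℝ) ^ (0.612 : ℝ) := Real.mul_rpow (by norm_num) (by positivity)
      _ ≤ 2 * (X : ℝ) ^ (0.612 : ℝ) := by
          apply mul_le_mul_of_nonneg_right _ (by positivity)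
          calc (2 : ℝ) ^ (0.612 : ℝ) ≤ 2 ^ (1 : ℝ) := Real.rpow_le_rpow_of_exponent_le (by norm_num) (by norm_num)
            _ = 2 := Real.rpow_one 2
  have hsub : {N : ℕ | 1 ≤ N ∧ N ≤ X ∧ ¬ Good κ ρ (δ / 2) h M N} ⊆
      ((range N₀ : Finset ℕ) : Set ℕ) ∪ (E ∪ (fun n => n - 1) '' E) := by
    intro N hN
    obtain ⟨a1, a2, a3⟩ := hN
    by_cases hN0 : N < N₀
    · exact Or.inl (by rw [mem_coe, mem_range]; exact hN0)
    · refine Or.inr ?_
      push Not at hN0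
      by_cases hr : Pool.Agent.U766.OP.Rich c δ N
      · refine Or.inr ⟨N + 1, ?_, by simp⟩
        rw [hE]
        refine ⟨by omega, by omega, fun hr' => a3 (hgood N hN0 hr hr')⟩
      · refine Or.inl ?_
        rw [hE]
        exact ⟨a1, by omega, hr⟩
  have hcard : {N : ℕ | 1 ≤ N ∧ N ≤ X ∧ ¬ Good κ ρ (δ / 2) h M N}.ncard ≤ N₀ + 2 * E.ncard := by
    have hfin2 : (((range N₀ : Finset ℕ) : Set ℕ) ∪ (E ∪ (fun n => n - 1) '' E)).Finite :=
      (Finset.finite_toSet _).union (hEfin.union (hEfin.image _))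
    refine (Set.ncard_le_ncard hsub hfin2).trans ((Set.ncard_union_le _ _).trans ?_)
    have h3 : (((range N₀ : Finset ℕ) : Set ℕ)).ncard = N₀ := by
      rw [Set.ncard_coe_finset, card_range]
    have h4 := Set.ncard_union_le E ((fun n => n - 1) '' E)
    have h5 := Set.ncard_image_le (f := fun n : ℕ => n - 1) hEfin
    rw [h3]
    omega
  have hcardR : (({N : ℕ | 1 ≤ N ∧ N ≤ X ∧ ¬ Good κ ρ (δ / 2) h M N}.ncard : ℕ) : ℝ) ≤ N₀ + 2 * (E.ncard : ℝ) := by
    exact_mod_cast hcard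
  have h6 := hX₁ X hXX₁
  calc K * (({N : ℕ | 1 ≤ N ∧ N ≤ X ∧ ¬ Good κ ρ (δ / 2) h M N}.ncard : ℕ) : ℝ)
      ≤ K' * (({N : ℕ | 1 ≤ N ∧ N ≤ X ∧ ¬ Good κ ρ (δ / 2) h M N}.ncard : ℕ) : ℝ) :=
        mul_le_mul_of_nonneg_right hKK' (Nat.cast_nonneg _)
    _ ≤ K' * (N₀ + 2 * (E.ncard : ℝ)) := by gcongr
    _ = K' * N₀ + 8 * K' * (E.ncard : ℝ) / 4 := by ring
    _ ≤ (X : ℝ) ^ (0.612 : ℝ) := by linarith

end Pool.Agent.Results.MP_e94e4b_nt.SumsNearMiss
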