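import Pool.Agent.U485.SM.All

/-!
# Pairs with a fixed sum between consecutive squares, in sieved random models of the primes

`T` is nondecreasing, `T(n) ≥ 2` for large `n`, `T(n) = n^{o(1)}`; every `n` without prime factors `≤ T(n)` is chosen
independently with probability `min(1, ∏_{p ≤ T(n)} (1 - 1/p)⁻¹ / log n)`. Almost surely, for every large `N` the
number of the `k` with `N² + k + 1` and `(N + 1)² - k` chosen is at least `(C - δ) N/(log N)²`, and an asymptotic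
formula with the truncated singular series holds; the same for the representations of every even number with the
first summand in a short window, and, uniformly, for all systems of linear forms with coefficients `≤ x^B` in all
windows.

Project HT: packages of helper891, helper660, helper139, helper803, helper373, helper741, helper668, helper333,
helper618, helper864.
-/

set_option autoImplicit false

namespace Pool.Agent.Results.MP_e94e4b_nt.UniformLawInRandomModels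

open MeasureTheory Filter Topology Pool.Agent.U485.SM

/-- the number of the `k` of the problem: `2 ≤ k ≤ 2 N` with `N ^ 2 + k + 1` and `(N + 1) ^ 2 - k` in `Q` -/
noncomputable def count (Q : Set ℕ) (N : ℕ) : ℕ :=
  {k : ℕ | 2 ≤ k ∧ k ≤ 2 * N ∧ N ^ 2 + k + 1 ∈ Q ∧ (N + 1) ^ 2 - k ∈ Q}.ncard

/-- the number of the `k` in `(a, a + h]` with `k` and `M - k` in `Q` -/
noncomputable def reps (Q : Set ℕ) (M a h : ℕ) : ℕ := {k : ℕ | a < k ∧ k ≤ a + h ∧ k ∈ Q ∧ M - k ∈ Q}.ncard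

/-- **Pairs with a fixed sum, and all systems of linear forms, in sieved random models.** -/
theorem result : ∃ C : ℝ, 0 < C ∧
    Tendsto (fun y : ℕ => ∏ p ∈ (Finset.Icc 3 y).filter Nat.Prime, (1 - 1 / ((p : ℝ) - 1) ^ 2)) atTop (𝓝 C) ∧
    ∀ (Ω : Type) [MeasurableSpace Ω] (μ : Measure Ω) [IsProbabilityMeasure μ] (T : ℕ → ℕ) (E : ℕ → Set Ω),
      Monotone T → (∀ᶠ n in atTop, 2 ≤ T n) → (∀ ε : ℝ, 0 < ε → ∀ᶠ n : ℕ in atTop, (T n : ℝ) ≤ (n : ℝ) ^ ε) →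
      Model μ T E → ∀ᵐ ω ∂μ,
        (∀ δ : ℝ, 0 < δ → ∀ᶠ N : ℕ in atTop, (C - δ) * N / (Real.log N) ^ 2 ≤ (count {m | ω ∈ E m} N : ℝ)) ∧
        (∀ (A : ℕ) (δ η : ℝ), 0 < δ → 0 < η → ∀ᶠ x : ℕ in atTop, ∀ M a h : ℕ, Even M →
          x ≤ a → a + h + x ≤ M → M ≤ A * x → (x : ℝ) ^ η ≤ h →
            (2 * C - δ) * h ≤ (reps {m | ω ∈ E m} M a h : ℝ) * (Real.log x) ^ 2) ∧
        ∀ (k B : ℕ) (A δ η : ℝ), 0 < δ → 0 < η → ∀ᶠ x : ℕ in atTop, ∀ (F : Finset (ℤ × ℤ)) (J₁ J₂ : ℤ),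
          F.card = k → (∀ f ∈ F, f.1 ≠ 0 ∧ |f.1| ≤ (x : ℤ) ^ B ∧ |f.2| ≤ (x : ℤ) ^ B ∧ IsCoprime f.1 f.2) →
          |J₁| ≤ (x : ℤ) ^ B → |J₂| ≤ (x : ℤ) ^ B → (J₁ : ℝ) + (x : ℝ) ^ η ≤ J₂ →
          (∀ n ∈ Finset.Ioc J₁ J₂, ∀ f ∈ F, (x : ℝ) ≤ val f n ∧ (val f n : ℝ) ≤ A * x) →
          |(cnt {m | ω ∈ E m} F J₁ J₂ : ℝ) * (Real.log x) ^ k -
              ∑ n ∈ Finset.Ioc J₁ J₂, Sg F (fun f => T (val f n).toNat)| ≤
            δ * (∑ n ∈ Finset.Ioc J₁ J₂, Sg F (fun f => T (val f n).toNat) + ((J₂ : ℝ) - J₁)) := by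
  obtain ⟨C, hC0, hC, -⟩ := co2
  refine ⟨C, hC0, hC, ?_⟩
  intro Ω _ μ _ T E hT hT2 hTs hE
  filter_upwards [pairs hT hTs hE, unif hT hTs hE] with ω h1 h2
  have h3 := pairs_low hT2 hC0 hC h1
  refine ⟨fun δ hδ => ?_, fun A δ η hδ hη => ?_, h2⟩
  · filter_upwards [sq_low h3 δ hδ] with N hN
    exact hN.1
  · filter_upwards [h3 A δ η hδ hη] with x hx M a h g1 g2 g3 g4 g5
    exact (hx M a h g1 g2 g3 g4 g5).2

end Pool.Agent.Results.MP_e94e4b_nt.UniformLawInRandomModels
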